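import Pool.Agent.Helper39.KZ.Stmts

set_option autoImplicit false

open Metric Set Polynomial

namespace KZ

theorem st_BOD.{u} (hEXT : ST_EXT) (hLIM : ST_LIM) (hMAIN : ST_MAIN.{u}) : ST_BOD.{u} := by
  intro K hK E _ _ _ A hA q m hm hq
  obtain ⟨g, hg⟩ := hEXT K hK
  refine le_of_forall_pos_le_add ?_
  intro ε hε
  -- uniform continuity of `q` near `K`
  have hunif := IsCompact.uniformContinuousAt_of_continuousAt (r := {p : ℂ × ℂ | dist p.1 p.2 < ε / 2})
    hK.1 (fun z : ℂ => q.eval z) (fun a _ => (q.continuous.continuousAt))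
    (dist_mem_uniformity (by positivity))
  rw [mem_uniformity_dist] at hunif
  obtain ⟨δ, hδ, hunif⟩ := hunif
  obtain ⟨r₀, hr₀, hlim⟩ := hLIM K g hK hg δ hδ
  set r : ℝ := (max r₀ 0 + 1) / 2 with hr
  have h1 : max r₀ 0 < 1 := max_lt hr₀ one_pos
  have h2 : max r₀ 0 < r := by rw [hr]; linarith
  have hr0 : 0 < r := lt_of_le_of_lt (le_max_right _ _) h2
  have hr1 : r < 1 := by rw [hr]; linarith
  have hkey := hMAIN K g hK hg r hr0 hr1 E A hA q (m + ε / 2) (by positivity) ?_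
  · calc ‖aeval A q‖ ≤ 2 * (m + ε / 2) := hkey
      _ = 2 * m + ε := by ring
  · intro t ht
    have htn : ‖t‖ = r := by simpa using ht
    obtain ⟨z, hz, hzd⟩ := hlim t (by rw [mem_ball_zero_iff, htn]; exact hr1)
      (by rw [htn]; exact lt_of_le_of_lt (le_max_left _ _) h2)
    have h3 := hunif (a := z) (b := (g t)⁻¹) (by rw [dist_comm, dist_eq_norm]; exact hzd) hz
    have h4 : dist (q.eval z) (q.eval (g t)⁻¹) < ε / 2 := h3
    have h5 := hq z hz
    have h6 : ‖q.eval (g t)⁻¹‖ ≤ ‖q.eval z‖ + dist (q.eval z) (q.eval (g t)⁻¹) := by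
      rw [dist_eq_norm]
      have := norm_sub_norm_le (q.eval (g t)⁻¹) (q.eval z)
      rw [norm_sub_rev] at this
      linarith
    linarith

end KZ
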